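import Pool.Agent.X118.EL.Stm

set_option autoImplicit false

namespace Pool.Agent.X121.EL

open Pool.Agent.X118.EL

theorem t_PERM : S_PERM := by
  intro K d d' h
  have e : ∀ κ, ({n // d n = κ} ≃ {n // d' n = κ}) := fun κ => Classical.choice (h κ)
  let π : Equiv.Perm ℕ := (Equiv.sigmaFiberEquiv d').symm.trans
    ((Equiv.sigmaCongrRight fun κ => (e κ).symm).trans (Equiv.sigmaFiberEquiv d))
  refine ⟨π, ?_⟩
  funext n
  show d ((e (d' n)).symm ⟨n, rfl⟩ : {n' // d n' = d' n}).1 = d' n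
  exact ((e (d' n)).symm ⟨n, rfl⟩).2

end Pool.Agent.X121.EL
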